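import Pool.Agent.Helper36.Homog

/-!
# From the Krull dimension of the coordinate ring to algebraic relations
-/

set_option autoImplicit false

namespace Pool.Agent.Helper36

/-- Krull dimension does not drop in an injective integral extension. -/
lemma ringKrullDim_le_of_integral {R S : Type*} [CommRing R] [CommRing S] [Algebra R S]
    [FaithfulSMul R S] [Algebra.IsIntegral R S] : ringKrullDim R ≤ ringKrullDim S := by
  unfold ringKrullDim Order.krullDim
  apply iSup_le
  intro l
  have hinj : Function.Injective (algebraMap R S) := FaithfulSMul.algebraMap_injective R S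
  obtain ⟨Q, -, hQ, hQl⟩ := Ideal.exists_ideal_over_prime_of_isIntegral
    (S := S) (RelSeries.head l).asIdeal (⊥ : Ideal S) (by
      intro x hx
      have : algebraMap R S x = 0 := hx
      rw [hinj (this.trans (map_zero _).symm)]
      exact Ideal.zero_mem _)
  have : Q.LiesOver (RelSeries.head l).asIdeal := ⟨hQl.symm⟩
  obtain ⟨L, hL, -, -⟩ := Ideal.exists_ltSeries_of_hasGoingUp (S := S) l Q
  rw [← hL]
  exact le_iSup (fun L : LTSeries (PrimeSpectrum S) => ((L.length : ℕ∞) : WithBot ℕ∞)) L

/-- In a domain of finite type of Krull dimension at most two, any three elements are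
algebraically dependent. -/
lemma exists_relation_of_krullDim {k D : Type} [Field k] [CommRing D] [IsDomain D] [Algebra k D]
    [Algebra.FiniteType k D] (hdim : ringKrullDim D ≤ 2) (v : Fin 3 → D) :
    ∃ Q : MvPolynomial (Fin 3) k, Q ≠ 0 ∧ MvPolynomial.aeval v Q = 0 := by
  obtain ⟨s, g, hginj, hgint⟩ := exists_integral_inj_algHom_of_fg k D
  let _ : Algebra (MvPolynomial (Fin s) k) D := g.toRingHom.toAlgebra
  have hmap : algebraMap (MvPolynomial (Fin s) k) D = g.toRingHom := rfl
  have : IsScalarTower k (MvPolynomial (Fin s) k) D := by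
    apply IsScalarTower.of_algebraMap_eq
    intro x
    rw [hmap]
    exact (g.commutes x).symm
  have : FaithfulSMul (MvPolynomial (Fin s) k) D := by
    rw [faithfulSMul_iff_algebraMap_injective]
    exact hginj
  have hint : Algebra.IsIntegral (MvPolynomial (Fin s) k) D := ⟨hgint⟩
  have h1 : ringKrullDim (MvPolynomial (Fin s) k) ≤ ringKrullDim D := ringKrullDim_le_of_integral
  rw [MvPolynomial.ringKrullDim_of_isNoetherianRing, ringKrullDim_eq_zero_of_field, zero_add,
    Nat.card_fin] at h1
  have hs : s ≤ 2 := by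
    have := h1.trans hdim
    exact_mod_cast this
  by_contra hcon
  push Not at hcon
  have hv : AlgebraicIndependent k v := by
    rw [algebraicIndependent_iff]
    intro p hp
    by_contra hne
    exact hcon p hne hp
  have h2 := hv.cardinalMk_le_trdeg
  have h3 : Algebra.trdeg k (MvPolynomial (Fin s) k) + Algebra.trdeg (MvPolynomial (Fin s) k) D =
      Algebra.trdeg k D := trdeg_add_eq k (MvPolynomial (Fin s) k)
  have h4 : Algebra.trdeg (MvPolynomial (Fin s) k) D = 0 := trdeg_eq_zero
  rw [h4, add_zero, MvPolynomial.trdeg_of_isDomain] at h3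
  rw [← h3] at h2
  simp only [Cardinal.mk_fintype, Fintype.card_fin, Cardinal.lift_natCast, Nat.cast_le] at h2
  omega

/-- Any three coordinates satisfy a nontrivial relation modulo the radical. -/
lemma exists_relation_radical {k ι : Type} [Field k] [Finite ι] (I : Ideal (MvPolynomial ι k))
    (hdim : ringKrullDim (MvPolynomial ι k ⧸ I) ≤ 2) (v : Fin 3 → MvPolynomial ι k) :
    ∃ Q : MvPolynomial (Fin 3) k, Q ≠ 0 ∧ MvPolynomial.aeval v Q ∈ I.radical := by
  classical
  have hfin : I.minimalPrimes.Finite := Ideal.finite_minimalPrimes_of_isNoetherianRing _ I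
  have h1 : ∀ 𝔮 ∈ I.minimalPrimes, ∃ Q : MvPolynomial (Fin 3) k, Q ≠ 0 ∧
      MvPolynomial.aeval v Q ∈ 𝔮 := by
    intro 𝔮 h𝔮
    have hprime : 𝔮.IsPrime := h𝔮.1.1
    have hle : I ≤ 𝔮 := h𝔮.1.2
    have hd : ringKrullDim (MvPolynomial ι k ⧸ 𝔮) ≤ 2 :=
      (ringKrullDim_le_of_surjective (Ideal.Quotient.factor hle)
        (Ideal.Quotient.factor_surjective hle)).trans hdim
    obtain ⟨Q, hQ0, hQ⟩ := exists_relation_of_krullDim (k := k) hd
      (fun i => Ideal.Quotient.mk 𝔮 (v i))
    refine ⟨Q, hQ0, ?_⟩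
    rw [← Ideal.Quotient.eq_zero_iff_mem]
    have h2 : Ideal.Quotient.mkₐ k 𝔮 (MvPolynomial.aeval v Q) =
        MvPolynomial.aeval (fun i => Ideal.Quotient.mk 𝔮 (v i)) Q := by
      rw [MvPolynomial.comp_aeval_apply]; rfl
    exact h2.trans hQ
  choose! Q hQ0 hQ using h1
  refine ⟨∏ 𝔮 ∈ hfin.toFinset, Q 𝔮, ?_, ?_⟩
  · rw [Finset.prod_ne_zero_iff]
    intro 𝔮 h𝔮
    exact hQ0 𝔮 (hfin.mem_toFinset.1 h𝔮)
  · rw [← Ideal.sInf_minimalPrimes, Ideal.mem_sInf]
    intro 𝔮 h𝔮
    rw [map_prod]
    rw [← Finset.mul_prod_erase _ _ (hfin.mem_toFinset.2 h𝔮)]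
    exact 𝔮.mul_mem_right _ (hQ 𝔮 h𝔮)

/-- Homogeneous relations on a cone. -/
lemma exists_homogeneous_relation {k ι : Type} [Field k] [Infinite k] [Finite ι]
    (S : Set (MvPolynomial ι k)) (hS : ∀ g ∈ S, ∃ e, g.IsHomogeneous e)
    (hdim : ringKrullDim (MvPolynomial ι k ⧸ Ideal.span S) ≤ 2) (a b c : ι) :
    ∃ (e : ℕ) (Q : MvPolynomial (Fin 3) k), Q.IsHomogeneous e ∧ Q ≠ 0 ∧
      ∀ x : ι → k, (∀ g ∈ S, MvPolynomial.eval x g = 0) →
        MvPolynomial.eval ![x a, x b, x c] Q = 0 := by
  obtain ⟨Q, hQ0, hQ⟩ := exists_relation_radical (Ideal.span S) hdim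
    ![MvPolynomial.X a, MvPolynomial.X b, MvPolynomial.X c]
  have hvan : ∀ x : ι → k, (∀ g ∈ S, MvPolynomial.eval x g = 0) →
      MvPolynomial.eval ![x a, x b, x c] Q = 0 := by
    intro x hx
    obtain ⟨n, hn⟩ := hQ
    have hspan : ∀ g ∈ Ideal.span S, MvPolynomial.eval x g = 0 := by
      intro g hg
      induction hg using Submodule.span_induction with
      | mem g hg => exact hx g hg
      | zero => rw [map_zero]
      | add a b _ _ ha hb => rw [map_add, ha, hb, add_zero]
      | smul a b _ hb => rw [smul_eq_mul, map_mul, hb, mul_zero]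
    have h1 := hspan _ hn
    rw [map_pow] at h1
    have h2 := eq_zero_of_pow_eq_zero h1
    have h3 : MvPolynomial.eval x (MvPolynomial.aeval
        ![(MvPolynomial.X a : MvPolynomial ι k), MvPolynomial.X b, MvPolynomial.X c] Q) =
        MvPolynomial.eval ![x a, x b, x c] Q := by
      have h4 : ∀ y : ι → k, ∀ g : MvPolynomial ι k, MvPolynomial.eval y g =
          MvPolynomial.aeval y g := fun y g =>
        (congrArg (fun φ => φ g) (MvPolynomial.coe_aeval_eq_eval y)).symm
      rw [h4, MvPolynomial.comp_aeval_apply]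
      rw [MvPolynomial.aeval_eq_eval]
      congr 2
      funext i
      fin_cases i <;> simp
    rwa [h3] at h2
  -- extract a homogeneous component
  obtain ⟨e, he⟩ : ∃ e, MvPolynomial.homogeneousComponent e Q ≠ 0 := by
    by_contra hcon
    push Not at hcon
    apply hQ0
    rw [← MvPolynomial.sum_homogeneousComponent Q]
    exact Finset.sum_eq_zero fun i _ => hcon i
  refine ⟨e, _, MvPolynomial.homogeneousComponent_isHomogeneous e Q, he, fun x hx => ?_⟩
  set v : Fin 3 → k := ![x a, x b, x c] with hv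
  set R : Polynomial k := ∑ i ∈ Finset.range (Q.totalDegree + 1),
    Polynomial.C (MvPolynomial.eval v (MvPolynomial.homogeneousComponent i Q)) * Polynomial.X ^ i
    with hR
  have hR0 : R = 0 := by
    apply Polynomial.zero_of_eval_zero
    intro l
    have h1 : MvPolynomial.eval (fun i => l * v i) Q = 0 := by
      have h2 := hvan (fun i => l * x i) (by
        intro g hg
        obtain ⟨n, hn⟩ := hS g hg
        rw [eval_smul_homogeneous hn, hx g hg, mul_zero])
      rw [← h2]
      congr 2
      funext i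
      fin_cases i <;> simp [hv]
    rw [← MvPolynomial.sum_homogeneousComponent Q, map_sum] at h1
    rw [hR, Polynomial.eval_finsetSum, ← h1]
    refine Finset.sum_congr rfl fun i _ => ?_
    rw [eval_smul_homogeneous (MvPolynomial.homogeneousComponent_isHomogeneous i Q),
      Polynomial.eval_mul, Polynomial.eval_C, Polynomial.eval_pow, Polynomial.eval_X, mul_comm]
  have hcoef := congrArg (fun p => p.coeff e) hR0
  simp only [hR, Polynomial.finsetSum_coeff, Polynomial.coeff_C_mul_X_pow,
    Polynomial.coeff_zero] at hcoef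
  rw [Finset.sum_ite_eq] at hcoef
  split_ifs at hcoef with h
  · exact hcoef
  · rw [MvPolynomial.homogeneousComponent_eq_zero, map_zero]
    rw [Finset.mem_range] at h
    omega

end Pool.Agent.Helper36
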