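import Mathlib

/-!
# Homogenisation and ternary forms
-/

set_option autoImplicit false

namespace Pool.Agent.Helper36

open Polynomial

section hom

variable {K : Type*} [Field K] {ι : Type*}

/-- homogenisation with respect to the variable `j` -/
noncomputable def homogenize (j : ι) (g : MvPolynomial ι K) : MvPolynomial ι K :=
  ∑ m ∈ g.support,
    MvPolynomial.monomial (m + Finsupp.single j (g.totalDegree - m.degree)) (g.coeff m)

lemma degree_le_totalDegree {g : MvPolynomial ι K} {m : ι →₀ ℕ} (hm : m ∈ g.support) :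
    m.degree ≤ g.totalDegree := by
  have := MvPolynomial.le_totalDegree hm
  rwa [Finsupp.degree_apply]

lemma homogenize_isHomogeneous (j : ι) (g : MvPolynomial ι K) :
    (homogenize j g).IsHomogeneous g.totalDegree := by
  apply MvPolynomial.IsHomogeneous.sum
  intro m hm
  apply MvPolynomial.isHomogeneous_monomial
  have := degree_le_totalDegree hm
  rw [map_add, Finsupp.degree_single]
  omega

lemma eval_homogenize [Fintype ι] (j : ι) (g : MvPolynomial ι K) (x : ι → K) (hx : x j ≠ 0) :
    MvPolynomial.eval x (homogenize j g) =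
      x j ^ g.totalDegree * MvPolynomial.eval (fun i => x i / x j) g := by
  classical
  rw [homogenize, map_sum, MvPolynomial.eval_eq (fun i => x i / x j) g, Finset.mul_sum]
  refine Finset.sum_congr rfl fun m hm => ?_
  rw [MvPolynomial.eval_monomial]
  have h1 : ((m + Finsupp.single j (g.totalDegree - m.degree)).prod fun n e => x n ^ e) =
      (m.prod fun n e => x n ^ e) * x j ^ (g.totalDegree - m.degree) := by
    rw [Finsupp.prod_add_index', Finsupp.prod_single_index]
    · exact pow_zero _
    · intro a; exact pow_zero _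
    · intro a b c; exact pow_add _ _ _
  rw [h1]
  have h2 : (∏ i ∈ m.support, (x i / x j) ^ m i) * x j ^ m.degree =
      m.prod fun n e => x n ^ e := by
    rw [Finsupp.degree_apply, ← Finset.prod_pow_eq_pow_sum, ← Finset.prod_mul_distrib, Finsupp.prod]
    refine Finset.prod_congr rfl fun i _ => ?_
    rw [← mul_pow, div_mul_cancel₀ _ hx]
  rw [← h2]
  have h3 : x j ^ g.totalDegree = x j ^ m.degree * x j ^ (g.totalDegree - m.degree) := by
    rw [← pow_add]; congr 1
    have := degree_le_totalDegree hm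
    omega
  rw [h3]; ring

lemma eval_smul_homogeneous {e : ℕ} {g : MvPolynomial ι K} (hg : g.IsHomogeneous e) (c : K)
    (x : ι → K) : MvPolynomial.eval (fun i => c * x i) g = c ^ e * MvPolynomial.eval x g := by
  rw [MvPolynomial.eval_eq, MvPolynomial.eval_eq, Finset.mul_sum]
  refine Finset.sum_congr rfl fun m hm => ?_
  have hd : ∑ i ∈ m.support, m i = e := by
    have := hg (MvPolynomial.mem_support_iff.1 hm)
    rw [Finsupp.weight_apply] at this
    simpa [Finsupp.sum] using this
  have h1 : ∏ i ∈ m.support, (c * x i) ^ m i = c ^ e * ∏ i ∈ m.support, x i ^ m i := by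
    rw [← hd, ← Finset.prod_pow_eq_pow_sum, ← Finset.prod_mul_distrib]
    exact Finset.prod_congr rfl fun i _ => mul_pow _ _ _
  rw [h1]; ring

end hom

/-! ### Ternary forms -/

section ternary

variable {K : Type*} [Field K]

lemma aeval_three {A : Type*} [CommRing A] [Algebra K A] (v : Fin 3 → A)
    (Q : MvPolynomial (Fin 3) K) :
    MvPolynomial.aeval v Q = ∑ m ∈ Q.support,
      algebraMap K A (Q.coeff m) * (v 0 ^ m 0 * v 1 ^ m 1 * v 2 ^ m 2) := by
  rw [MvPolynomial.aeval_def, MvPolynomial.eval₂_eq']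
  refine Finset.sum_congr rfl fun m _ => ?_
  rw [Fin.prod_univ_three]

lemma homog_degree {σ : Type*} {e : ℕ} {Q : MvPolynomial σ K} (hQ : Q.IsHomogeneous e)
    {m : σ →₀ ℕ} (hm : Q.coeff m ≠ 0) : m.degree = e := by
  rw [Finsupp.degree_eq_weight_one]; exact hQ hm

lemma sum_three {e : ℕ} {Q : MvPolynomial (Fin 3) K} (hQ : Q.IsHomogeneous e) {m : Fin 3 →₀ ℕ}
    (hm : m ∈ Q.support) : m 0 + m 1 + m 2 = e := by
  have := homog_degree hQ (MvPolynomial.mem_support_iff.1 hm)
  rw [Finsupp.degree_eq_sum, Fin.sum_univ_three] at this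
  exact this

lemma dehomog_ne_zero {e : ℕ} {Q : MvPolynomial (Fin 3) K} (hQ : Q.IsHomogeneous e)
    (hQ0 : Q ≠ 0) :
    (MvPolynomial.aeval ![(1 : K[X][X]), C X, X] Q : K[X][X]) ≠ 0 := by
  obtain ⟨m₀, hm₀⟩ := MvPolynomial.ne_zero_iff.1 hQ0
  intro h
  apply hm₀
  have h1 := congrArg (fun q : K[X][X] => (q.coeff (m₀ 2)).coeff (m₀ 1)) h
  simp only [aeval_three, Polynomial.finsetSum_coeff, Polynomial.coeff_zero] at h1
  rw [Finset.sum_eq_single m₀] at h1
  · have h2 : (algebraMap K K[X][X] (Q.coeff m₀) = C (C (Q.coeff m₀))) := rfl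
    simp only [h2, Matrix.cons_val_zero, Matrix.cons_val_one, Matrix.cons_val, one_pow, one_mul,
      ← C_pow] at h1
    rw [← mul_assoc, ← C_mul, Polynomial.coeff_C_mul_X_pow, if_pos rfl,
      Polynomial.coeff_C_mul_X_pow, if_pos rfl] at h1
    exact h1
  · intro m hm hne
    have h2 : (algebraMap K K[X][X] (Q.coeff m) = C (C (Q.coeff m))) := rfl
    simp only [h2, Matrix.cons_val_zero, Matrix.cons_val_one, Matrix.cons_val, one_pow, one_mul,
      ← C_pow]
    rw [← mul_assoc, ← C_mul, Polynomial.coeff_C_mul_X_pow]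
    split_ifs with h3
    · rw [Polynomial.coeff_C_mul_X_pow]
      split_ifs with h4
      · exfalso
        apply hne
        have e1 := sum_three hQ hm
        have e2 := sum_three hQ (MvPolynomial.mem_support_iff.2 hm₀)
        ext i
        fin_cases i
        · change m 0 = m₀ 0; omega
        · exact h4.symm
        · exact h3.symm
      · rfl
    · simp
  · intro h2
    exact absurd h2 (by simpa using hm₀)

lemma infinity_ne_zero {e : ℕ} {Q : MvPolynomial (Fin 3) K} (hQ : Q.IsHomogeneous e)
    (hQ0 : ∃ m ∈ Q.support, m 0 = 0) :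
    (MvPolynomial.aeval ![(0 : K[X]), X, 1] Q : K[X]) ≠ 0 := by
  obtain ⟨m₀, hm₀, hz⟩ := hQ0
  intro h
  apply MvPolynomial.mem_support_iff.1 hm₀
  have h1 := congrArg (fun q : K[X] => q.coeff (m₀ 1)) h
  simp only [aeval_three, Polynomial.finsetSum_coeff, Polynomial.coeff_zero] at h1
  rw [Finset.sum_eq_single m₀] at h1
  · have h2 : (algebraMap K K[X] (Q.coeff m₀) = C (Q.coeff m₀)) := rfl
    simp only [h2, Matrix.cons_val_zero, Matrix.cons_val_one, Matrix.cons_val, one_pow, one_mul,
      hz, pow_zero, mul_one] at h1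
    rw [Polynomial.coeff_C_mul_X_pow, if_pos rfl] at h1
    exact h1
  · intro m hm hne
    have h2 : (algebraMap K K[X] (Q.coeff m) = C (Q.coeff m)) := rfl
    simp only [h2, Matrix.cons_val_zero, Matrix.cons_val_one, Matrix.cons_val, one_pow, mul_one]
    by_cases h0 : m 0 = 0
    · rw [h0, pow_zero, one_mul, Polynomial.coeff_C_mul_X_pow]
      split_ifs with h4
      · exfalso
        apply hne
        have e1 := sum_three hQ hm
        have e2 := sum_three hQ hm₀
        ext i
        fin_cases i
        · change m 0 = m₀ 0; omega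
        · exact h4.symm
        · change m 2 = m₀ 2; omega
      · rfl
    · rw [zero_pow h0]; simp
  · intro h2
    exact absurd hm₀ h2

/-- A ternary relation of minimal degree is not divisible by the first variable. -/
lemma exists_minimal_relation {V : Set (Fin 3 → K)} (hV : ∀ x ∈ V, x 0 ≠ 0)
    (h : ∃ (e : ℕ) (Q : MvPolynomial (Fin 3) K), Q.IsHomogeneous e ∧ Q ≠ 0 ∧
      ∀ x ∈ V, MvPolynomial.eval x Q = 0) :
    ∃ (e : ℕ) (Q : MvPolynomial (Fin 3) K), Q.IsHomogeneous e ∧
      (∃ m ∈ Q.support, m 0 = 0) ∧ ∀ x ∈ V, MvPolynomial.eval x Q = 0 := by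
  classical
  obtain ⟨Q, hQ1, hQ2, hQ3⟩ := Nat.find_spec h
  refine ⟨Nat.find h, Q, hQ1, ?_, hQ3⟩
  by_contra hcon
  push Not at hcon
  -- divide by the first variable
  set Q' := MvPolynomial.divMonomial Q (Finsupp.single 0 1) with hQ'
  have hmod : MvPolynomial.modMonomial Q (Finsupp.single 0 1) = 0 := by
    ext m
    rw [MvPolynomial.coeff_zero]
    by_cases hle : Finsupp.single 0 1 ≤ m
    · exact MvPolynomial.coeff_modMonomial_of_le Q hle
    · rw [MvPolynomial.coeff_modMonomial_of_not_le Q hle]
      by_contra hne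
      have := hcon m (MvPolynomial.mem_support_iff.2 hne)
      apply hle
      rw [Finsupp.single_le_iff]
      omega
  have hQeq : Q = MvPolynomial.X 0 * Q' := by
    have := MvPolynomial.divMonomial_add_modMonomial_single Q 0
    rw [hmod, add_zero] at this
    exact this.symm
  have hQ'0 : Q' ≠ 0 := by
    intro h0
    apply hQ2
    rw [hQeq, h0, mul_zero]
  have hpos : 0 < Nat.find h := by
    obtain ⟨m, hm⟩ := MvPolynomial.ne_zero_iff.1 hQ2
    have h1 := sum_three hQ1 (MvPolynomial.mem_support_iff.2 hm)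
    have h2 := hcon m (MvPolynomial.mem_support_iff.2 hm)
    omega
  have hlt : Nat.find h - 1 < Nat.find h := by omega
  apply Nat.find_min h hlt
  refine ⟨Q', ?_, hQ'0, ?_⟩
  · intro m hm
    rw [hQ', MvPolynomial.coeff_divMonomial] at hm
    have h1 := homog_degree hQ1 hm
    rw [map_add, Finsupp.degree_single] at h1
    have h2 : m.degree = Nat.find h - 1 := by omega
    rw [Finsupp.degree_eq_weight_one] at h2
    exact h2
  · intro x hx
    have h1 := hQ3 x hx
    rw [hQeq, map_mul, MvPolynomial.eval_X] at h1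
    exact (mul_eq_zero.1 h1).resolve_left (hV x hx)

end ternary

end Pool.Agent.Helper36
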